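import Pool.Agent.Lib.Eln.Limit

set_option autoImplicit false

/-!
There is a separable unital simple nuclear C*-algebra in which every non-zero projection is infinite
and which is not purely infinite.
-/

open Filter Topology

namespace Pool.Agent.Results.MP_3ff0ef_an.NuclearNegative

/-- `p` is Murray-von Neumann equivalent to a projection `v v* ≤ p` different from `p`
(for projections `q ≤ p` means `p q = q`). -/
def IsInfiniteProjection {A : Type} [CStarAlgebra A] (p : A) : Prop :=
  ∃ v : A, star v * v = p ∧ p * (v * star v) = v * star v ∧ v * star v ≠ p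

/-- positive elements of a C*-algebra -/
def IsPos {A : Type} [CStarAlgebra A] (a : A) : Prop := ∃ c : A, a = star c * c

/-- Cuntz comparison -/
def CuntzBelow {A : Type} [CStarAlgebra A] (a b : A) : Prop :=
  ∃ r : ℕ → A, Tendsto (fun n => r n * b * star (r n)) atTop (𝓝 a)

/-- Purely infinite: no characters (non-zero multiplicative linear functionals) and `a` is Cuntz
below `b` whenever `a`, `b` are positive and `a` is in the closed two-sided ideal generated
by `b`. -/
def PurelyInfinite (A : Type) [CStarAlgebra A] : Prop :=
  (∀ f : A →ₙₐ[ℂ] ℂ, f = 0) ∧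
    ∀ a b : A, IsPos a → IsPos b → a ∈ closure (TwoSidedIdeal.span {b} : Set A) → CuntzBelow a b

/-- the C*-algebra of linear operators of the Hilbert space `ℂ^d`, i.e. the matrix algebra `M_d(ℂ)` -/
abbrev Mat (d : ℕ) : Type := EuclideanSpace ℂ (Fin d) →L[ℂ] EuclideanSpace ℂ (Fin d)

noncomputable instance (d : ℕ) : CStarAlgebra (Mat d) where

/-- Completely positive maps: `∑ i, ∑ j, b_i^* φ(a_i^* a_j) b_j` is positive for all finite
families `a_i` in `A` and `b_i` in `B`. -/
def CompletelyPositive {A B : Type} [CStarAlgebra A] [CStarAlgebra B] (φ : A →ₗ[ℂ] B) : Prop :=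
  ∀ (n : ℕ) (a : Fin n → A) (b : Fin n → B),
    IsPos (∑ i, ∑ j, star (b i) * φ (star (a i) * a j) * b j)

/-- The identity of `A` is approximated up to `ε` on `F` by a composition `A → B → A` of completely
positive contractions. -/
def ApproxThrough (A B : Type) [CStarAlgebra A] [CStarAlgebra B] (F : Finset A) (ε : ℝ) : Prop :=
  ∃ (φ : A →ₗ[ℂ] B) (ψ : B →ₗ[ℂ] A), CompletelyPositive φ ∧ CompletelyPositive ψ ∧
    (∀ a, ‖φ a‖ ≤ ‖a‖) ∧ (∀ m, ‖ψ m‖ ≤ ‖m‖) ∧ ∀ a ∈ F, ‖ψ (φ a) - a‖ < ε

/-- Nuclear: the completely positive approximation property.  On every finite set the identity is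
approximated in norm by compositions `A → M_d(ℂ) → A` of completely positive contractions. -/
def IsNuclear (A : Type) [CStarAlgebra A] : Prop :=
  ∀ (F : Finset A) (ε : ℝ), 0 < ε → ∃ d : ℕ, ApproxThrough A (Mat d) F ε

theorem isNuclear_of {A : Type} [CStarAlgebra A] (h : Pool.Agent.Lib.Eln.Nuclear A) :
    IsNuclear A := h

theorem infinite_of {A : Type} [CStarAlgebra A] {p r v : A} (hp : IsStarProjection p)
    (hr : star r * p * r = 1) (hv : star v * v = 1) (hv' : v * star v ≠ 1) :
    IsInfiniteProjection p := by
  have hpp := hp.isIdempotentElem.eq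
  have hps := hp.isSelfAdjoint.star_eq
  have h1 : star (p * r) * (p * r) = 1 := by
    have : star (p * r) * (p * r) = star r * (star p * p) * r := by
      simp only [star_mul, mul_assoc]
    rw [this, hps, hpp, hr]
  have h2 : p * (p * r) = p * r := by rw [← mul_assoc, hpp]
  set s := p * r with hs
  have h3 : star s * p = star s := by
    have := congrArg star h2
    rwa [star_mul, hps] at this
  refine ⟨s * v * star s + (p - s * star s), ?_, ?_, ?_⟩
  · have e1 : star (s * v * star s + (p - s * star s)) * (s * v * star s + (p - s * star s)) =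
        s * star v * (star s * s) * v * star s + (s * star v * (star s * p) -
          s * star v * (star s * s) * star s) + ((p * s) * v * star s -
          s * (star s * s) * v * star s) + (p * p - (p * s) * star s - s * (star s * p) +
          s * (star s * s) * star s) := by
      simp only [star_add, star_sub, star_mul, star_star, hps, add_mul, mul_add, mul_sub, sub_mul,
        mul_assoc]
      abel
    rw [e1, h1, h2, h3, hpp, mul_one, mul_one]
    have e2 : s * star v * v * star s = s * (star v * v) * star s := by simp only [mul_assoc]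
    rw [e2, hv, mul_one]
    abel
  · have e1 : p * (s * v * star s + (p - s * star s)) = s * v * star s + (p - s * star s) := by
      have : p * (s * v * star s + (p - s * star s)) =
          (p * s) * v * star s + (p * p - (p * s) * star s) := by
        simp only [mul_add, mul_sub, mul_assoc]
      rw [this, h2, hpp]
    rw [← mul_assoc, e1]
  · intro h
    have e1 : (s * v * star s + (p - s * star s)) * star (s * v * star s + (p - s * star s)) =
        s * v * (star s * s) * star v * star s + (s * v * (star s * p) -
          s * v * (star s * s) * star s) + ((p * s) * star v * star s -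
          s * (star s * s) * star v * star s) + (p * p - (p * s) * star s - s * (star s * p) +
          s * (star s * s) * star s) := by
      simp only [star_add, star_sub, star_mul, star_star, hps, add_mul, mul_add, mul_sub, sub_mul,
        mul_assoc]
      abel
    rw [e1, h1, h2, h3, hpp, mul_one, mul_one] at h
    have e2 : s * v * star v * star s = s * star s := by
      simp only [sub_self, add_zero, sub_add_cancel] at h
      have h7 : s * v * star v * star s - s * star s = 0 := by
        rw [← sub_eq_zero.2 h]; abel
      exact sub_eq_zero.1 h7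
    have e3 := congrArg (fun z => star s * z * s) e2
    have e4 : star s * (s * v * star v * star s) * s =
        (star s * s) * v * star v * (star s * s) := by simp only [mul_assoc]
    have e5 : star s * (s * star s) * s = (star s * s) * (star s * s) := by
      simp only [mul_assoc]
    rw [e4, e5, h1] at e3
    apply hv'
    simpa using e3

theorem result : ∃ (A : Type) (_ : CStarAlgebra A),
    TopologicalSpace.SeparableSpace A ∧ IsSimpleRing A ∧ IsNuclear A ∧
      (∀ p : A, IsStarProjection p → p ≠ 0 → IsInfiniteProjection p) ∧ ¬ PurelyInfinite A := by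
  obtain ⟨A, inst, hsep, hsimple, hnuc, hp, ⟨v, hv, hv'⟩, b, hb, hnd⟩ :=
    Pool.Agent.Lib.Eln.exists_algebra
  refine ⟨A, inst, hsep, hsimple, isNuclear_of hnuc, fun p hpp hp0 => ?_, fun hpi => ?_⟩
  · obtain ⟨r, hr⟩ := hp p hpp hp0
    exact infinite_of hpp hr hv hv'
  · have hbb : star b * b ≠ 0 := fun h => hb ((CStarRing.star_mul_self_eq_zero_iff b).1 h)
    have hmem : (1 : A) ∈ closure (TwoSidedIdeal.span {star b * b} : Set A) := by
      apply subset_closure
      have h1 : TwoSidedIdeal.span {star b * b} ≠ ⊥ := by
        intro h
        apply hbb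
        rw [← TwoSidedIdeal.mem_bot, ← h]
        exact TwoSidedIdeal.subset_span rfl
      have h2 : TwoSidedIdeal.span {star b * b} = ⊤ :=
        (hsimple.simple.eq_bot_or_eq_top _).resolve_left h1
      rw [h2]
      trivial
    obtain ⟨r, hr⟩ := hpi.2 1 (star b * b) ⟨1, by simp⟩ ⟨b, rfl⟩ hmem
    have h3 := (tendsto_iff_norm_sub_tendsto_zero.1 hr).eventually
      (gt_mem_nhds (show (0 : ℝ) < 1 / 2 by norm_num))
    obtain ⟨n, hn⟩ := h3.exists
    have h4 := hnd (star (r n))
    rw [star_star] at h4
    linarith

end Pool.Agent.Results.MP_3ff0ef_an.NuclearNegative
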